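import Pool.Agent.Q107.IRG.PathMain

/-!
# All paths on at least 15 vertices are IR-graphs

Definitions (`Pool.Agent.Q107.IRG.Defs`): `IsIrredundant`, `IRNum`, `IRSet`, `Slide`, `irGraph`.

The graph on the vertices `0, ..., n` (`Q107.IRG.Path.pg`) is the complement of a graph in which
`x < y` are joined if `y ≥ 11` and `y - x` is `1` or `5`, or if `(x, y)` is one of 17 exceptional
pairs.  Away from the exceptional pairs its `IR`-sets are `{y - 4, y - 2, y}`; the exchanges of
`y - 4` and `y + 2` give two long paths, one for each parity of `y`, and the exceptional part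
joins the two paths at their lower ends.
-/

set_option autoImplicit false

namespace Pool.Agent.Results.MP_cd4b59_co.LongPaths

open Q107.IRG

/-- **Disproof of Q1.** For every `n ≥ 15` the path `P_n` is an `IR`-graph: there is a finite
simple graph `G` (on `n + 1` vertices) whose `IR`-graph is isomorphic to `P_n`. -/
theorem result (n : ℕ) (hn : 15 ≤ n) :
    ∃ (V : Type) (_ : Fintype V) (G : SimpleGraph V),
      Fintype.card V = n + 1 ∧ Nonempty (irGraph G ≃g SimpleGraph.pathGraph n) :=
  ⟨Fin (n + 1), inferInstance, Path.pg (n + 1), Fintype.card_fin (n + 1),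
    Path.path_iso (n := n + 1) (by omega)⟩

end Pool.Agent.Results.MP_cd4b59_co.LongPaths
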